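import Pool.Agent.H11.NX.Targets

/-!
# Board nx_modules: module LA
-/

set_option autoImplicit false

open Equiv (Perm)
open Polynomial Module

namespace Pool.Agent.H48.NX.LA

open Pool.Agent.H11.NX

variable {K : Type} [Field K]

/-- permutations of part of a basis over the field `K[X]/(q)` -/
theorem perm_action {W : Type} [AddCommGroup W] [Module K W] [FiniteDimensional K W]
    (S : Module.End K W) (q : K[X]) (hq : Irreducible q) (hS : aeval S q = 0) (r m : ℕ)
    (hr : q.natDegree ≤ r) (hm : 0 < m) (hd : r * m ≤ Module.finrank K W) :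
    ∃ θ : Perm (Fin m) →* (W ≃ₗ[K] W), (∀ σ v, S (θ σ v) = θ σ (S v)) ∧
      ∀ (σ : Perm (Fin m)) (a : K), (∀ v, θ σ v = a • v) → σ = 1 := by
  classical
  have hmax : (Ideal.span {q}).IsMaximal :=
    PrincipalIdealRing.isMaximal_of_irreducible hq
  let E := K[X] ⧸ Ideal.span {q}
  let _ : Field E := Ideal.Quotient.field (Ideal.span {q})
  have hker : ∀ a : K[X], a ∈ Ideal.span {q} → aeval S a = 0 := by
    intro a ha
    obtain ⟨b, rfl⟩ := Ideal.mem_span_singleton.1 ha
    rw [map_mul, hS, zero_mul]
  let ρ : E →ₐ[K] Module.End K W := Ideal.Quotient.liftₐ (Ideal.span {q}) (aeval S) hker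
  let _ : Module E W := Module.compHom W ρ.toRingHom
  have hsm : ∀ (e : E) (w : W), e • w = ρ e w := fun _ _ => rfl
  have : IsScalarTower K E W := by
    refine ⟨fun k e w => ?_⟩
    rw [hsm, hsm, map_smul]
    rfl
  have : Module.Finite E W := Module.Finite.of_restrictScalars_finite K E W
  have hfe : Module.finrank K E = q.natDegree := finrank_quotient_span_eq_natDegree
  have hmul : Module.finrank K E * Module.finrank E W = Module.finrank K W :=
    Module.finrank_mul_finrank K E W
  have hmd : m ≤ Module.finrank E W := by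
    by_contra h
    push Not at h
    have h1 : q.natDegree * Module.finrank E W ≤ r * (m - 1) :=
      Nat.mul_le_mul hr (by omega)
    have hr0 : 0 < r := lt_of_lt_of_le hq.natDegree_pos hr
    have h2 : r * (m - 1) < r * m := Nat.mul_lt_mul_of_pos_left (by omega) hr0
    rw [hfe] at hmul
    omega
  let b : Basis (Fin (Module.finrank E W)) E W := Module.finBasis E W
  let ι : Fin m ↪ Fin (Module.finrank E W) := Fin.castLEEmb hmd
  let η : Perm (Fin (Module.finrank E W)) →* (W ≃ₗ[E] W) :=
    { toFun := fun τ => b.equiv b τ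
      map_one' := by
        refine b.ext' fun i => ?_
        simp
      map_mul' := by
        intro τ τ'
        refine b.ext' fun i => ?_
        rw [LinearEquiv.mul_apply]
        simp only [Basis.equiv_apply, Perm.coe_mul, Function.comp_apply] }
  let κ : (W ≃ₗ[E] W) →* (W ≃ₗ[K] W) :=
    { toFun := fun f => f.restrictScalars K
      map_one' := rfl
      map_mul' := fun _ _ => rfl }
  refine ⟨κ.comp (η.comp (Equiv.Perm.viaEmbeddingHom ι)), ?_, ?_⟩
  · intro σ v
    have hX : ∀ w : W, S w = (Ideal.Quotient.mk (Ideal.span {q}) X : E) • w := by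
      intro w
      rw [hsm]
      change S w = (aeval S X) w
      rw [aeval_X]
    change S ((η (Equiv.Perm.viaEmbeddingHom ι σ)) v) = (η (Equiv.Perm.viaEmbeddingHom ι σ)) (S v)
    rw [hX, hX, map_smul]
  · intro σ a h
    refine Equiv.ext fun i => ?_
    have h1 : (η (Equiv.Perm.viaEmbeddingHom ι σ)) (b (ι i)) = a • b (ι i) := h (b (ι i))
    have h2 : (η (Equiv.Perm.viaEmbeddingHom ι σ)) (b (ι i)) = b (ι (σ i)) := by
      change b.equiv b (Equiv.Perm.viaEmbeddingHom ι σ) (b (ι i)) = b (ι (σ i))
      rw [Basis.equiv_apply, Equiv.Perm.viaEmbeddingHom_apply, Equiv.Perm.viaEmbedding_apply]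
    rw [h2] at h1
    by_contra hne
    have hne' : ι i ≠ ι (σ i) := fun h3 => hne (ι.injective h3).symm
    have h4 : a • b (ι i) = (algebraMap K E a) • b (ι i) := (algebraMap_smul E a _).symm
    rw [h4] at h1
    have h5 := congrArg (fun w => b.repr w (ι (σ i))) h1
    simp only [map_smul, Basis.repr_self, Finsupp.smul_apply, Finsupp.single_eq_same] at h5
    rw [Finsupp.single_apply, if_neg hne'] at h5
    simp at h5

/-- extension by the identity to a complement -/
theorem extend_action {V : Type} [AddCommGroup V] [Module K V] (T : Module.End K V)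
    (W W' : Submodule K V) (hc : IsCompl W W') (hW : ∀ v ∈ W, T v ∈ W) (hW' : ∀ v ∈ W', T v ∈ W')
    (m : ℕ) (hm : ∃ θ : Perm (Fin m) →* (W ≃ₗ[K] W),
      (∀ σ v, T.restrict hW (θ σ v) = θ σ (T.restrict hW v)) ∧
      ∀ (σ : Perm (Fin m)) (a : K), (∀ v, θ σ v = a • v) → σ = 1) :
    ∃ θ : Perm (Fin m) →* (V ≃ₗ[K] V), (∀ σ v, T (θ σ v) = θ σ (T v)) ∧
      ∀ (σ : Perm (Fin m)) (a : K), (∀ v, θ σ v = a • v) → σ = 1 := by
  obtain ⟨θ, h1, h2⟩ := hm
  let e : (W × W') ≃ₗ[K] V := Submodule.prodEquivOfIsCompl W W' hc
  have he : ∀ (w : W) (w' : W'), e (w, w') = (w : V) + (w' : V) := by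
    intro w w'
    simp [e]
  let Θ : Perm (Fin m) → (V ≃ₗ[K] V) := fun σ =>
    e.symm.trans (((θ σ).prodCongr (LinearEquiv.refl K W')).trans e)
  have hΘ : ∀ σ (w : W) (w' : W'), Θ σ ((w : V) + (w' : V)) = ((θ σ w : W) : V) + (w' : V) := by
    intro σ w w'
    rw [← he, ← he]
    simp [Θ]
  have hdec : ∀ v : V, ∃ (w : W) (w' : W'), v = (w : V) + (w' : V) := by
    intro v
    refine ⟨(e.symm v).1, (e.symm v).2, ?_⟩
    rw [← he, Prod.mk.eta, LinearEquiv.apply_symm_apply]
  refine ⟨{ toFun := Θ, map_one' := ?_, map_mul' := ?_ }, ?_, ?_⟩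
  · refine LinearEquiv.ext fun v => ?_
    obtain ⟨w, w', rfl⟩ := hdec v
    rw [hΘ, map_one]
    rfl
  · intro σ τ
    refine LinearEquiv.ext fun v => ?_
    obtain ⟨w, w', rfl⟩ := hdec v
    rw [LinearEquiv.mul_apply, hΘ, hΘ, hΘ, map_mul]
    rfl
  · intro σ v
    obtain ⟨w, w', rfl⟩ := hdec v
    change T (Θ σ (w + w')) = Θ σ (T (w + w'))
    have h3 : T ((w : V) + (w' : V)) = ((T.restrict hW w : W) : V) +
        ((T.restrict hW' w' : W') : V) := by
      rw [map_add]
      rfl
    rw [h3, hΘ, hΘ, map_add, ← h1]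
    rfl
  · intro σ a h
    refine h2 σ a fun w => ?_
    have h4 := h w
    change Θ σ (w : V) = a • (w : V) at h4
    have h5 := hΘ σ w 0
    rw [Submodule.coe_zero, add_zero, add_zero] at h5
    rw [h5] at h4
    exact Subtype.ext h4

/-- dimension of the kernel of a product -/
theorem ker_mul_le {V : Type} [AddCommGroup V] [Module K V] [FiniteDimensional K V]
    (A B : Module.End K V) :
    Module.finrank K (LinearMap.ker (A * B)) ≤
      Module.finrank K (LinearMap.ker A) + Module.finrank K (LinearMap.ker B) := by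
  let f : LinearMap.ker (A * B) →ₗ[K] LinearMap.ker A :=
    (B.domRestrict (LinearMap.ker (A * B))).codRestrict (LinearMap.ker A) (by
      intro x
      have h := x.2
      rw [LinearMap.mem_ker, Module.End.mul_apply] at h
      exact h)
  have h1 := LinearMap.finrank_range_add_finrank_ker f
  have h2 : Module.finrank K (LinearMap.range f) ≤ Module.finrank K (LinearMap.ker A) :=
    Submodule.finrank_le _
  let g : LinearMap.ker f →ₗ[K] LinearMap.ker B :=
    ((LinearMap.ker (A * B)).subtype.domRestrict (LinearMap.ker f)).codRestrict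
      (LinearMap.ker B) (by
      intro x
      have h := x.2
      rw [LinearMap.mem_ker] at h
      have h' := congrArg (fun y : LinearMap.ker A => (y : V)) h
      exact h')
  have hg : Function.Injective g := by
    intro x y hxy
    have h := congrArg (fun y : LinearMap.ker B => (y : V)) hxy
    exact Subtype.ext (Subtype.ext h)
  have h3 : Module.finrank K (LinearMap.ker f) ≤ Module.finrank K (LinearMap.ker B) :=
    LinearMap.finrank_le_finrank_of_injective hg
  omega

theorem ker_le {V : Type} [AddCommGroup V] [Module K V] [FiniteDimensional K V]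
    (T : Module.End K V) (N : ℕ) (q : K[X]) : q ≠ 0 →
    (∀ a : K[X], Irreducible a → a ∣ q → Module.finrank K (LinearMap.ker (aeval T a)) ≤ N) →
    Module.finrank K (LinearMap.ker (aeval T q)) ≤ q.natDegree * N := by
  induction q using UniqueFactorizationMonoid.induction_on_prime with
  | h₁ => intro h; exact absurd rfl h
  | h₂ a ha =>
    intro _ _
    obtain ⟨u, rfl⟩ := ha
    have h1 : Function.Injective (aeval T (u : K[X])) := by
      have h2 : aeval T ((u⁻¹ : K[X]ˣ) : K[X]) * aeval T (u : K[X]) = 1 := by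
        rw [← map_mul, Units.inv_mul, map_one]
      intro x y hxy
      have h3 := congrArg (aeval T ((u⁻¹ : K[X]ˣ) : K[X])) hxy
      rw [← Module.End.mul_apply, ← Module.End.mul_apply, h2] at h3
      exact h3
    rw [LinearMap.ker_eq_bot.2 h1, finrank_bot]
    exact Nat.zero_le _
  | h₃ a p ha hp ih =>
    intro hne h
    have hi := ih ha fun c hc hca => h c hc (hca.trans (dvd_mul_left a p))
    have hpN := h p hp.irreducible (dvd_mul_right p a)
    have h1 := ker_mul_le (aeval T p) (aeval T a)
    rw [← map_mul] at h1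
    rw [Polynomial.natDegree_mul hp.ne_zero ha, add_mul]
    have h2 : 1 * N ≤ p.natDegree * N := Nat.mul_le_mul_right N hp.irreducible.natDegree_pos
    omega

theorem pf_la : T_LA := by
  intro K V _ _ _ _ T c r m hr hrK hc hT hd
  rcases Nat.eq_zero_or_pos m with hm | hm
  · subst hm
    exact ⟨1, fun _ _ => rfl, fun σ _ _ => Subsingleton.elim _ _⟩
  have hr0 := hr.pos
  set p : K[X] := X ^ r - C c with hp
  have hsep : p.Separable := separable_X_pow_sub_C c hrK hc
  have hp0 : p ≠ 0 := hsep.ne_zero
  have hdeg : p.natDegree = r := natDegree_X_pow_sub_C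
  have hTp : aeval T p = 0 := by
    refine LinearMap.ext fun v => ?_
    simp [hp, hT v, Module.algebraMap_end_apply]
  obtain ⟨q, hq, hqp, hqd⟩ : ∃ q : K[X], Irreducible q ∧ q ∣ p ∧
      r * m ≤ Module.finrank K (LinearMap.ker (aeval T q)) := by
    by_contra hcon
    push Not at hcon
    have h1 := ker_le T (r * m - 1) p hp0 fun a ha hap => by
      have := hcon a ha hap
      omega
    rw [hTp, LinearMap.ker_zero, finrank_top, hdeg] at h1
    have h2 : r * (r * m - 1) < r * (r * m) :=
      Nat.mul_lt_mul_of_pos_left (Nat.sub_lt (Nat.mul_pos hr0 hm) Nat.one_pos) hr0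
    have h3 : r * r * m = r * (r * m) := by ring
    omega
  obtain ⟨q', hqq⟩ := hqp
  have hcop : IsCoprime q q' := by
    rw [hqq] at hsep
    exact hsep.isCoprime
  have hcompl : IsCompl (LinearMap.ker (aeval T q)) (LinearMap.ker (aeval T q')) := by
    refine ⟨disjoint_ker_aeval_of_isCoprime T hcop, ?_⟩
    rw [codisjoint_iff, sup_ker_aeval_eq_ker_aeval_mul_of_coprime T hcop, ← hqq, hTp,
      LinearMap.ker_zero]
  have hinv : ∀ a : K[X], ∀ v ∈ LinearMap.ker (aeval T a), T v ∈ LinearMap.ker (aeval T a) := by
    intro a v hv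
    rw [LinearMap.mem_ker] at hv ⊢
    have h1 : aeval T a * T = T * aeval T a := by
      have h2 : aeval T (a * X) = aeval T (X * a) := by rw [mul_comm]
      rwa [map_mul, map_mul, aeval_X] at h2
    rw [← Module.End.mul_apply, h1, Module.End.mul_apply, hv, map_zero]
  refine extend_action T _ _ hcompl (hinv q) (hinv q') m ?_
  refine perm_action _ q hq ?_ r m ?_ hm hqd
  · refine LinearMap.ext fun v => Subtype.ext ?_
    have h1 : ∀ (a : K[X]) (w : LinearMap.ker (aeval T q)),
        ((aeval (T.restrict (hinv q)) a w : LinearMap.ker (aeval T q)) : V) =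
          aeval T a (w : V) := by
      intro a
      induction a using Polynomial.induction_on' with
      | add a b ha hb =>
        intro w
        rw [map_add, map_add, LinearMap.add_apply, LinearMap.add_apply, Submodule.coe_add,
          ha, hb]
      | monomial n x =>
        intro w
        have h2 : ∀ (n : ℕ) (w : LinearMap.ker (aeval T q)),
            (((T.restrict (hinv q)) ^ n) w : V) = (T ^ n) (w : V) := by
          intro n
          induction n with
          | zero => intro w; rfl
          | succ n ih =>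
            intro w
            rw [pow_succ, pow_succ, Module.End.mul_apply, Module.End.mul_apply, ih]
            rfl
        rw [aeval_monomial, aeval_monomial, Module.End.mul_apply, Module.End.mul_apply,
          Module.algebraMap_end_apply, Module.algebraMap_end_apply, Submodule.coe_smul, h2]
    rw [h1 q v]
    exact v.2
  · rw [← hdeg, hqq]
    have hq' : q' ≠ 0 := by
      rintro rfl
      rw [mul_zero] at hqq
      exact hp0 hqq
    rw [Polynomial.natDegree_mul hq.ne_zero hq']
    exact Nat.le_add_right _ _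

end Pool.Agent.H48.NX.LA
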